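import Mathlib
import Pool.Agent.P8H74.WP.Stm

/-!
# Project WP (helper74): counting with the Chinese remainder theorem (package CRT)
-/

set_option autoImplicit false

open NumberField IsDedekindDomain Polynomial

namespace Pool.Agent.P8H96.WP

open Pool.Agent.P8H74.WP

theorem count {ι : Type} [Fintype ι] (Q : ι → Type) [∀ v, Finite (Q v)] (M : ∀ v, Set (Q v)) (r : ℕ) (c : ℝ)
    (hc0 : 0 < c) (hM : ∀ v, c * (Nat.card (Q v) : ℝ) ≤ ((M v).ncard : ℝ)) :
    ({h : ∀ v, Fin r → Q v | ∀ v, ¬ ∀ i, h v i ∈ M v}.ncard : ℝ) ≤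
      (1 - c ^ r) ^ Fintype.card ι * (∏ v, (Nat.card (Q v) : ℝ)) ^ r := by
  classical
  have : ∀ v, Fintype (Q v) := fun v => Fintype.ofFinite _
  have e : {h : ∀ v, Fin r → Q v | ∀ v, ¬ ∀ i, h v i ∈ M v} =
      ((Fintype.piFinset fun v => Finset.univ.filter fun g : Fin r → Q v => ¬ ∀ i, g i ∈ M v : Finset _) :
        Set (∀ v, Fin r → Q v)) := by
    ext h
    simp
  rw [e, Set.ncard_coe_finset, Fintype.card_piFinset]
  push_cast
  rw [← Finset.prod_pow, ← Finset.card_univ, ← Finset.prod_const, ← Finset.prod_mul_distrib]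
  refine Finset.prod_le_prod (fun v _ => Nat.cast_nonneg _) fun v _ => ?_
  have h1 : (Finset.univ.filter fun g : Fin r → Q v => ∀ i, g i ∈ M v).card = (M v).ncard ^ r := by
    have h2 : (Finset.univ.filter fun g : Fin r → Q v => ∀ i, g i ∈ M v) =
        Fintype.piFinset fun _ : Fin r => (M v).toFinset := by
      ext g
      simp
    rw [h2, Fintype.card_piFinset, Finset.prod_const, Finset.card_univ, Fintype.card_fin,
      Set.ncard_eq_toFinset_card']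
  have h3 := Finset.card_filter_add_card_filter_not (s := (Finset.univ : Finset (Fin r → Q v)))
    (fun g : Fin r → Q v => ∀ i, g i ∈ M v)
  rw [h1, Finset.card_univ, Fintype.card_fun, Fintype.card_fin, ← Nat.card_eq_fintype_card] at h3
  have h4 : (((M v).ncard : ℝ)) ^ r + ((Finset.univ.filter fun g : Fin r → Q v => ¬ ∀ i, g i ∈ M v).card : ℝ) =
      (Nat.card (Q v) : ℝ) ^ r := by exact_mod_cast h3
  have h5 : (c * (Nat.card (Q v) : ℝ)) ^ r ≤ ((M v).ncard : ℝ) ^ r :=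
    pow_le_pow_left₀ (by positivity) (hM v) r
  rw [mul_pow] at h5
  linarith

theorem crt : S_CRT := by
  intro K _ _ r c hc0 hc1 E V hV hM ε hε
  classical
  have hcr : 0 < c ^ r := pow_pos hc0 r
  have hcr1 : c ^ r ≤ 1 := pow_le_one₀ hc0.le hc1
  obtain ⟨n, hn⟩ := exists_pow_lt_of_lt_one hε (show 1 - c ^ r < 1 by linarith)
  obtain ⟨t, htV, htn⟩ := hV.exists_subset_card_eq n
  choose! M hM1 hM2 using hM
  have hfin : ∀ v : HeightOneSpectrum (𝓞 K), Finite (𝓞 K ⧸ v.asIdeal) := fun v =>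
    Ideal.finiteQuotientOfFreeOfNeBot _ v.ne_bot
  obtain ⟨f, hf⟩ : ∃ f : {v // v ∈ t} → Ideal (𝓞 K), f = fun v => v.1.asIdeal := ⟨_, rfl⟩
  have hcop : Pairwise (Function.onFun IsCoprime fun v : {v // v ∈ t} => v.1.asIdeal) := by
    intro v w hvw
    have hne : v.1.asIdeal ≠ w.1.asIdeal := fun h => hvw (Subtype.ext (HeightOneSpectrum.ext h))
    exact Ideal.isCoprime_iff_sup_eq.2 (v.1.isMaximal.coprime_of_ne w.1.isMaximal hne)
  obtain ⟨e, he⟩ : ∃ e : (𝓞 K ⧸ ⨅ v : {v // v ∈ t}, v.1.asIdeal) ≃ ∀ v : {v // v ∈ t}, 𝓞 K ⧸ v.1.asIdeal,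
      ∀ x v, e (Ideal.Quotient.mk _ x) v = Ideal.Quotient.mk _ x :=
    ⟨(Ideal.quotientInfRingEquivPiQuotient (fun v : {v // v ∈ t} => v.1.asIdeal) hcop).toEquiv, fun x v => rfl⟩
  refine ⟨⨅ v : {v // v ∈ t}, v.1.asIdeal, ?_, ?_⟩
  · intro hbot
    have h1 : ∏ v : {v // v ∈ t}, v.1.asIdeal ≤ Finset.univ.inf fun v : {v // v ∈ t} => v.1.asIdeal :=
      Ideal.prod_le_inf
    rw [Finset.inf_univ_eq_iInf, hbot, le_bot_iff, ← Ideal.zero_eq_bot, Finset.prod_eq_zero_iff] at h1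
    obtain ⟨v, -, hv⟩ := h1
    exact v.1.ne_bot hv
  · have h1 := count (fun v : {v // v ∈ t} => 𝓞 K ⧸ v.1.asIdeal) (fun v => M v.1) r c hc0 (by
      intro v
      have h2 := hM1 v.1 (htV v.2)
      rwa [Ideal.absNorm_apply, Submodule.cardQuot_apply] at h2)
    have h3 : (Nat.card (𝓞 K ⧸ ⨅ v : {v // v ∈ t}, v.1.asIdeal) : ℝ) =
        ∏ v : {v // v ∈ t}, (Nat.card (𝓞 K ⧸ v.1.asIdeal) : ℝ) := by
      rw [Nat.card_congr e, Nat.card_pi]
      push_cast
      rfl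
    rw [h3]
    have h4 : (((fun γ : Fin r → 𝓞 K => fun i => Ideal.Quotient.mk (⨅ v : {v // v ∈ t}, v.1.asIdeal) (γ i)) ''
        E).ncard) ≤ {h : ∀ v : {v // v ∈ t}, Fin r → 𝓞 K ⧸ v.1.asIdeal | ∀ v, ¬ ∀ i, h v i ∈ M v.1}.ncard := by
      refine Set.ncard_le_ncard_of_injOn (fun g v i => e (g i) v) ?_ ?_ (Set.toFinite _)
      · rintro _ ⟨γ, hγ, rfl⟩ v
        simp only [he]
        exact hM2 v.1 (htV v.2) γ hγ
      · intro g _ g' _ hgg
        funext i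
        apply e.injective
        funext v
        exact congrFun (congrFun hgg v) i
    have h5 : Fintype.card {v // v ∈ t} = n := by rw [Fintype.card_coe, htn]
    rw [h5] at h1
    have h6 : (0 : ℝ) ≤ (∏ v : {v // v ∈ t}, (Nat.card (𝓞 K ⧸ v.1.asIdeal) : ℝ)) ^ r :=
      pow_nonneg (Finset.prod_nonneg fun _ _ => Nat.cast_nonneg _) r
    revert h1 h6
    generalize (∏ v : {v // v ∈ t}, (Nat.card (𝓞 K ⧸ v.1.asIdeal) : ℝ)) ^ r = P
    intro h1 h6
    have h7 := h1.trans (mul_le_mul_of_nonneg_right hn.le h6)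
    exact (Nat.cast_le.2 h4).trans h7

end Pool.Agent.P8H96.WP
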