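import Mathlib
import Pool.Agent.P8H74.WP.Stm

/-!
# Project WP (helper74): finitely many bad primes (package GFN)
-/

set_option autoImplicit false

open NumberField IsDedekindDomain Polynomial

namespace Pool.Agent.P8H96.WP

open Pool.Agent.P8H74.WP

theorem gfn : S_GFN := by
  intro K _ _ f hf
  have hlc : f.leadingCoeff ≠ 0 := leadingCoeff_ne_zero.2 hf
  have h1 : ∀ x : K, {v : HeightOneSpectrum (𝓞 K) | 1 < v.valuation K x}.Finite := fun x =>
    HeightOneSpectrum.Support.finite (𝓞 K) x
  refine ((f.support.finite_toSet.biUnion fun i _ => h1 (f.coeff i)).union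
    (h1 (f.leadingCoeff)⁻¹)).subset ?_
  intro v hv
  by_contra hcon
  rw [Set.mem_union, not_or] at hcon
  obtain ⟨h2, h3⟩ := hcon
  apply hv
  have h4 : ∀ i, v.valuation K (f.coeff i) ≤ 1 := by
    intro i
    by_cases hi : i ∈ f.support
    · by_contra hc
      exact h2 (Set.mem_biUnion (show i ∈ (f.support : Set ℕ) from hi) (not_le.1 hc))
    · rw [notMem_support_iff.1 hi, map_zero]
      exact zero_le
  refine ⟨h4, le_antisymm (h4 _) ?_⟩
  have h5 : v.valuation K (f.leadingCoeff)⁻¹ ≤ 1 := not_lt.1 h3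
  rw [map_inv₀] at h5
  have h6 : v.valuation K f.leadingCoeff ≠ 0 := (Valuation.ne_zero_iff _).2 hlc
  exact (inv_le_one₀ (zero_lt_iff.2 h6)).1 h5

end Pool.Agent.P8H96.WP
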