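import Mathlib
import Pool.Agent.P8H74.WP.Stm3

/-!
# Project WP (helper74): counting with the Chinese remainder theorem, one excluded class (package CR1)
-/

set_option autoImplicit false

open NumberField IsDedekindDomain Polynomial

namespace Pool.Agent.P8H96.WP.One

open Pool.Agent.P8H74.WP

theorem count1 {ι : Type} [Fintype ι] (Q : ι → Type) [∀ v, Finite (Q v)] (a : ∀ v, Q v) :
    ({h : ∀ v, Q v | ∀ v, h v ≠ a v}.ncard : ℝ) ≤
      (∏ v, (1 - 1 / (Nat.card (Q v) : ℝ))) * ∏ v, (Nat.card (Q v) : ℝ) := by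
  classical
  have : ∀ v, Fintype (Q v) := fun v => Fintype.ofFinite _
  have e : {h : ∀ v, Q v | ∀ v, h v ≠ a v} =
      ((Fintype.piFinset fun v => Finset.univ.erase (a v) : Finset _) : Set (∀ v, Q v)) := by
    ext h
    simp
  rw [e, Set.ncard_coe_finset, Fintype.card_piFinset, ← Finset.prod_mul_distrib]
  push_cast
  refine le_of_eq (Finset.prod_congr rfl fun v _ => ?_)
  have h1 : 0 < Fintype.card (Q v) := Fintype.card_pos_iff.2 ⟨a v⟩
  have h2 : (0 : ℝ) < Fintype.card (Q v) := by exact_mod_cast h1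
  rw [Finset.card_erase_of_mem (Finset.mem_univ _), Finset.card_univ, Nat.card_eq_fintype_card,
    Nat.cast_sub h1]
  field_simp
  push_cast
  ring

/-- **CR1.** -/
theorem cr1 : S_CR1 := by
  intro K _ _ t E hM
  classical
  choose! a ha using hM
  have hfin : ∀ v : HeightOneSpectrum (𝓞 K), Finite (𝓞 K ⧸ v.asIdeal) := fun v =>
    Ideal.finiteQuotientOfFreeOfNeBot _ v.ne_bot
  have hcop : Pairwise (Function.onFun IsCoprime fun v : {v // v ∈ t} => v.1.asIdeal) := by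
    intro v w hvw
    have hne : v.1.asIdeal ≠ w.1.asIdeal := fun h => hvw (Subtype.ext (HeightOneSpectrum.ext h))
    exact Ideal.isCoprime_iff_sup_eq.2 (v.1.isMaximal.coprime_of_ne w.1.isMaximal hne)
  obtain ⟨e, he⟩ : ∃ e : (𝓞 K ⧸ ⨅ v : {v // v ∈ t}, v.1.asIdeal) ≃ ∀ v : {v // v ∈ t}, 𝓞 K ⧸ v.1.asIdeal,
      ∀ x v, e (Ideal.Quotient.mk _ x) v = Ideal.Quotient.mk _ x :=
    ⟨(Ideal.quotientInfRingEquivPiQuotient (fun v : {v // v ∈ t} => v.1.asIdeal) hcop).toEquiv, fun x v => rfl⟩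
  refine ⟨⨅ v : {v // v ∈ t}, v.1.asIdeal, ?_, ?_⟩
  · intro hbot
    have h1 : ∏ v : {v // v ∈ t}, v.1.asIdeal ≤ Finset.univ.inf fun v : {v // v ∈ t} => v.1.asIdeal :=
      Ideal.prod_le_inf
    rw [Finset.inf_univ_eq_iInf, hbot, le_bot_iff, ← Ideal.zero_eq_bot, Finset.prod_eq_zero_iff] at h1
    obtain ⟨v, -, hv⟩ := h1
    exact v.1.ne_bot hv
  · have h1 := count1 (fun v : {v // v ∈ t} => 𝓞 K ⧸ v.1.asIdeal) (fun v => Ideal.Quotient.mk v.1.asIdeal (a v.1))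
    have h3 : (Nat.card (𝓞 K ⧸ ⨅ v : {v // v ∈ t}, v.1.asIdeal) : ℝ) =
        ∏ v : {v // v ∈ t}, (Nat.card (𝓞 K ⧸ v.1.asIdeal) : ℝ) := by
      rw [Nat.card_congr e, Nat.card_pi]
      push_cast
      rfl
    have h2 : ∏ v ∈ t, (1 - 1 / (Ideal.absNorm v.asIdeal : ℝ)) =
        ∏ v : {v // v ∈ t}, (1 - 1 / (Nat.card (𝓞 K ⧸ v.1.asIdeal) : ℝ)) := by
      rw [← Finset.prod_coe_sort]
      refine Finset.prod_congr rfl fun v _ => ?_
      rw [Ideal.absNorm_apply, Submodule.cardQuot_apply]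
    rw [h3, h2]
    have h4 : ((Ideal.Quotient.mk (⨅ v : {v // v ∈ t}, v.1.asIdeal) '' E).ncard) ≤
        {h : ∀ v : {v // v ∈ t}, 𝓞 K ⧸ v.1.asIdeal | ∀ v, h v ≠ Ideal.Quotient.mk v.1.asIdeal (a v.1)}.ncard := by
      refine Set.ncard_le_ncard_of_injOn (fun g => e g) ?_ ?_ (Set.toFinite _)
      · rintro _ ⟨x, hx, rfl⟩ v
        simp only [he]
        intro h
        exact ha v.1 v.2 x hx (Ideal.Quotient.eq.1 h)
      · intro g _ g' _ hgg
        exact e.injective hgg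
    exact (Nat.cast_le.2 h4).trans h1

end Pool.Agent.P8H96.WP.One
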